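import Mathlib
import Pool.Agent.H46.Sp.Def

set_option autoImplicit false
open Finset

/-! # Structure of the environments of a window

Membership of the single tiles in the random and in the open labels of `X_j`, the kinds of the tiles of the two
columns in the rows `j - 1`, `j`, comparison of `X_j` and `X_(j+1)`, values of the weights `qJ`. -/

namespace Pool.Agent.H46.Sp

open Pool.Agent.H75.Perc Pool.Agent.H75.TwoArm Pool.Agent.Q1 Pool.Agent.H33.Q1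
open Pool.Agent.H75.Four Pool.Agent.H69.Q1
open Pool.Agent.H74.R45 (exists_lt)

namespace Win

variable {D : Win} {x y j : ℤ} {a b c : ℂ}

/-! ### Random tiles -/

lemma InU.E (h : D.InU x y) : D.InE j x y := Or.inl h

lemma InE_iff (h0 : -1 ≤ y) (h1 : y < D.h) : D.InE j x y ↔ (D.m y ≤ x ∧ x < D.M y) ∨
    (x = D.m y - 1 ∧ (D.LS j y ∨ D.LN j y)) ∨ (x = D.M y ∧ (D.RS j y ∨ D.RN j y)) := by
  unfold InE InU
  tauto

lemma InE_l (h0 : -1 ≤ y) (h1 : y < D.h) : D.InE j (D.m y - 1) y ↔ D.LS j y ∨ D.LN j y := by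
  have hM := m_lt_M h0 h1
  rw [InE_iff h0 h1]
  constructor
  · rintro (h | h | h)
    · omega
    · exact h.2
    · omega
  · intro h
    exact Or.inr (Or.inl ⟨rfl, h⟩)

lemma InE_r (h0 : -1 ≤ y) (h1 : y < D.h) : D.InE j (D.M y) y ↔ D.RS j y ∨ D.RN j y := by
  have hM := m_lt_M h0 h1
  rw [InE_iff h0 h1]
  constructor
  · rintro (h | h | h)
    · omega
    · omega
    · exact h.2
  · intro h
    exact Or.inr (Or.inr ⟨rfl, h⟩)

lemma InE_in (h0 : -1 ≤ y) (h1 : y < D.h) (h2 : D.m y ≤ x) (h3 : x < D.M y) : D.InE j x y :=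
  Or.inl ⟨h0, h1, h2, h3⟩

lemma not_InE (h : y < -1 ∨ D.h ≤ y ∨ x + 2 ≤ D.m y ∨ D.M y + 1 ≤ x) : ¬ D.InE j x y := by
  intro h2
  have := h2.z
  omega

/-! ### Open tiles -/

lemma not_InX (h0 : -1 ≤ y) (h1 : y < D.h) (h2 : D.m y ≤ x + 1) (h3 : x ≤ D.M y) :
    ¬ D.InX x y := by
  rintro ⟨-, ⟨-, -, h, -⟩ | ⟨-, -, h, -⟩ | ⟨h, -⟩ | ⟨h, -⟩⟩ <;> omega

lemma not_InC (h : y < -1 ∨ D.h ≤ y ∨ x + 2 ≤ D.m y ∨ D.M y + 1 ≤ x ∨ (D.m y ≤ x ∧ x < D.M y)) :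
    ¬ D.InC j x y := by
  intro h2
  have := h2.z
  have hM := m_lt_M this.1 this.2.1
  obtain ⟨-, -, ⟨h3, -⟩ | ⟨h3, -⟩⟩ := h2 <;> omega

lemma InC_l (h0 : -1 ≤ y) (h1 : y < D.h) : D.InC j (D.m y - 1) y ↔
    (D.LB j y ∧ (D.m y - 1 + y) % 2 = 1) ∨ (D.LA j y ∧ (D.m y - 1 + y) % 2 = 0) ∨
      (D.LO j y ∧ D.cl y = true) := by
  have hM := m_lt_M h0 h1
  unfold InC
  constructor
  · rintro ⟨-, -, ⟨-, h⟩ | ⟨h, -⟩⟩
    · exact h
    · omega
  · intro h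
    exact ⟨h0, h1, Or.inl ⟨rfl, h⟩⟩

lemma InC_r (h0 : -1 ≤ y) (h1 : y < D.h) : D.InC j (D.M y) y ↔
    (D.RB j y ∧ (D.M y + y) % 2 = 1) ∨ (D.RA j y ∧ (D.M y + y) % 2 = 0) ∨
      (D.RO j y ∧ D.cr y = true) := by
  have hM := m_lt_M h0 h1
  unfold InC
  constructor
  · rintro ⟨-, -, ⟨h, -⟩ | ⟨-, h⟩⟩
    · omega
    · exact h
  · intro h
    exact ⟨h0, h1, Or.inr ⟨rfl, h⟩⟩

lemma InX_l (hz : D.InZ x y) (h0 : -1 ≤ y) (h1 : y < D.h) (h2 : x + 2 ≤ D.m y) :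
    D.InX x y ↔ D.cl y = true := by
  have hM := m_lt_M h0 h1
  unfold InX
  constructor
  · rintro ⟨-, ⟨-, -, -, h⟩ | ⟨-, -, h, -⟩ | ⟨h, -⟩ | ⟨h, -⟩⟩
    · exact h
    all_goals omega
  · intro h
    exact ⟨hz, Or.inl ⟨h0, h1, h2, h⟩⟩

lemma InX_r (hz : D.InZ x y) (h0 : -1 ≤ y) (h1 : y < D.h) (h2 : D.M y + 1 ≤ x) :
    D.InX x y ↔ D.cr y = true := by
  have hM := m_lt_M h0 h1
  unfold InX
  constructor
  · rintro ⟨-, ⟨-, -, h, -⟩ | ⟨-, -, -, h⟩ | ⟨h, -⟩ | ⟨h, -⟩⟩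
    · omega
    · exact h
    all_goals omega
  · intro h
    exact ⟨hz, Or.inr (Or.inl ⟨h0, h1, h2, h⟩)⟩

lemma InX_b (hz : D.InZ x (-2)) : D.InX x (-2) ↔ D.cb = true := by
  have := D.hh
  unfold InX
  constructor
  · rintro ⟨-, ⟨h, -⟩ | ⟨h, -⟩ | ⟨-, h⟩ | ⟨h, -⟩⟩
    · omega
    · omega
    · exact h
    · omega
  · intro h
    exact ⟨hz, Or.inr (Or.inr (Or.inl ⟨rfl, h⟩))⟩

lemma InX_t (hz : D.InZ x D.h) : D.InX x D.h ↔ D.ct = true := by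
  have := D.hh
  unfold InX
  constructor
  · rintro ⟨-, ⟨-, h, -⟩ | ⟨-, h, -⟩ | ⟨h, -⟩ | ⟨-, h⟩⟩
    · omega
    · omega
    · omega
    · exact h
  · intro h
    exact ⟨hz, Or.inr (Or.inr (Or.inr ⟨rfl, h⟩))⟩

variable (O : Out D)

/-- open labels in the box -/
lemma mem_WJ (hz : D.InZ x y) : lt (x, y) ∈ D.WJ j O.Wo ↔ D.InC j x y ∨ D.InX x y := by
  unfold WJ
  rw [mem_union, mem_WR]
  constructor
  · rintro (h | h)
    · exact h
    · exact absurd hz (O.far x y h)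
  · exact Or.inl

/-- open labels outside of the box -/
lemma mem_WJ_far (hz : ¬ D.InZ x y) : lt (x, y) ∈ D.WJ j O.Wo ↔ lt (x, y) ∈ O.Wo := by
  unfold WJ
  rw [mem_union]
  constructor
  · rintro (h | h)
    · exact absurd (mem_GA.1 (WR_sub h)) hz
    · exact h
  · exact Or.inr

lemma not_mem_WJ (hj : 0 ≤ j) (h : D.InE j x y) : lt (x, y) ∉ D.WJ j O.Wo := fun h2 =>
  (disjoint_left.1 (disj_EW O hj)) (mem_EJ.2 h) h2

/-- the left column -/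
lemma mem_WJ_l (h0 : -1 ≤ y) (h1 : y < D.h) : lt (D.m y - 1, y) ∈ D.WJ j O.Wo ↔
    (D.LB j y ∧ (D.m y - 1 + y) % 2 = 1) ∨ (D.LA j y ∧ (D.m y - 1 + y) % 2 = 0) ∨
      (D.LO j y ∧ D.cl y = true) := by
  have hM := m_lt_M h0 h1
  rw [mem_WJ O (z_of ⟨h0, h1, by omega, by omega⟩), InC_l h0 h1]
  have := not_InX (D := D) (x := D.m y - 1) h0 h1 (by omega) (by omega)
  tauto

/-- the right column -/
lemma mem_WJ_r (h0 : -1 ≤ y) (h1 : y < D.h) : lt (D.M y, y) ∈ D.WJ j O.Wo ↔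
    (D.RB j y ∧ (D.M y + y) % 2 = 1) ∨ (D.RA j y ∧ (D.M y + y) % 2 = 0) ∨
      (D.RO j y ∧ D.cr y = true) := by
  have hM := m_lt_M h0 h1
  rw [mem_WJ O (z_of ⟨h0, h1, by omega, by omega⟩), InC_r h0 h1]
  have := not_InX (D := D) (x := D.M y) h0 h1 (by omega) (by omega)
  tauto

/-- the inner tiles are not in `WJ` -/
lemma mem_WJ_in (h0 : -1 ≤ y) (h1 : y < D.h) (h2 : D.m y ≤ x) (h3 : x < D.M y) :
    lt (x, y) ∉ D.WJ j O.Wo := by
  rw [mem_WJ O (z_of ⟨h0, h1, by omega, by omega⟩)]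
  rintro (h | h)
  · exact not_InC (by omega) h
  · exact not_InX h0 h1 (by omega) (by omega) h

/-- to the left of the left column -/
lemma mem_WJ_l2 (h0 : -1 ≤ y) (h1 : y < D.h) (h2 : x + 2 ≤ D.m y) (h3 : D.a (D.yP - 1) ≤ x + 2) :
    lt (x, y) ∈ D.WJ j O.Wo ↔ D.cl y = true := by
  have hM := m_lt_M h0 h1
  have hM2 := M_max h0 h1
  have hz : D.InZ x y := ⟨h3, by omega, by omega, by omega⟩
  rw [mem_WJ O hz, InX_l hz h0 h1 h2]
  have := not_InC (D := D) (j := j) (x := x) (y := y) (by omega)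
  tauto

/-- to the right of the right column -/
lemma mem_WJ_r2 (h0 : -1 ≤ y) (h1 : y < D.h) (h2 : D.M y + 1 ≤ x) (h3 : x ≤ D.b D.yQ + 1) :
    lt (x, y) ∈ D.WJ j O.Wo ↔ D.cr y = true := by
  have hM := m_lt_M h0 h1
  have hM2 := m_min h0 h1
  have hz : D.InZ x y := ⟨by omega, h3, by omega, by omega⟩
  rw [mem_WJ O hz, InX_r hz h0 h1 h2]
  have := not_InC (D := D) (j := j) (x := x) (y := y) (by omega)
  tauto

/-- below the window -/
lemma mem_WJ_b (h2 : D.a (D.yP - 1) ≤ x + 2) (h3 : x ≤ D.b D.yQ + 1) :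
    lt (x, -2) ∈ D.WJ j O.Wo ↔ D.cb = true := by
  have hh := D.hh
  have hz : D.InZ x (-2) := ⟨h2, h3, by omega, by omega⟩
  rw [mem_WJ O hz, InX_b hz]
  have := not_InC (D := D) (j := j) (x := x) (y := -2) (by omega)
  tauto

/-- above the window -/
lemma mem_WJ_t (h2 : D.a (D.yP - 1) ≤ x + 2) (h3 : x ≤ D.b D.yQ + 1) :
    lt (x, D.h) ∈ D.WJ j O.Wo ↔ D.ct = true := by
  have hh := D.hh
  have hz : D.InZ x D.h := ⟨h2, h3, by omega, by omega⟩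
  rw [mem_WJ O hz, InX_t hz]
  have := not_InC (D := D) (j := j) (x := x) (y := D.h) (by omega)
  tauto

/-! ### The kinds of the tiles of the columns near the row of the line -/

/-- row `j` of `X_j`, left column -/
lemma L_j : (D.LS j j ↔ j < D.yP ∧ ¬ (j + 1 < D.yP ∧ D.a (j + 1) < D.a j)) ∧ (¬ D.LN j j) ∧
    (D.LB j j ↔ j + 1 < D.yP ∧ D.a (j + 1) < D.a j) ∧ (¬ D.LA j j) ∧ (D.LO j j ↔ D.yP ≤ j) := by
  unfold LS LN LB LA LO
  refine ⟨?_, ?_, ?_, ?_, ?_⟩ <;> omega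

/-- row `j - 1` of `X_j`, left column -/
lemma L_j1 : (¬ D.LS j (j - 1)) ∧ (¬ D.LN j (j - 1)) ∧ (D.LB j (j - 1) ↔ j ≤ D.yP) ∧
    (D.LA j (j - 1) ↔ D.yP < j) ∧ (¬ D.LO j (j - 1)) := by
  unfold LS LN LB LA LO
  refine ⟨?_, ?_, ?_, ?_, ?_⟩ <;> omega

/-- row `j` of `X_(j+1)`, left column -/
lemma L_sj : (¬ D.LS (j + 1) j) ∧ (¬ D.LN (j + 1) j) ∧ (D.LB (j + 1) j ↔ j < D.yP) ∧
    (D.LA (j + 1) j ↔ D.yP ≤ j) ∧ (¬ D.LO (j + 1) j) := by
  unfold LS LN LB LA LO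
  refine ⟨?_, ?_, ?_, ?_, ?_⟩ <;> omega

/-- row `j - 1` of `X_(j+1)`, left column -/
lemma L_sj1 : (¬ D.LS (j + 1) (j - 1)) ∧
    (D.LN (j + 1) (j - 1) ↔ D.yP < j ∧ ¬ D.a (j - 1) < D.a j) ∧
    (D.LB (j + 1) (j - 1) ↔ j = D.yP) ∧
    (D.LA (j + 1) (j - 1) ↔ D.yP < j ∧ D.a (j - 1) < D.a j) ∧
    (D.LO (j + 1) (j - 1) ↔ j < D.yP) := by
  unfold LS LN LB LA LO
  rw [show j - 1 + 1 = j by ring]
  refine ⟨?_, ?_, ?_, ?_, ?_⟩ <;> omega

/-- row `j` of `X_j`, right column -/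
lemma R_j : (¬ D.RS j j) ∧ (D.RN j j ↔ j < D.yQ ∧ ¬ D.b j < D.b (j + 1)) ∧
    (D.RB j j ↔ j + 1 = D.yQ) ∧ (D.RA j j ↔ j + 1 < D.yQ ∧ D.b j < D.b (j + 1)) ∧
    (D.RO j j ↔ D.yQ ≤ j) := by
  unfold RS RN RB RA RO
  refine ⟨?_, ?_, ?_, ?_, ?_⟩ <;> omega

/-- row `j - 1` of `X_j`, right column -/
lemma R_j1 : (¬ D.RS j (j - 1)) ∧ (¬ D.RN j (j - 1)) ∧ (D.RB j (j - 1) ↔ D.yQ ≤ j) ∧
    (D.RA j (j - 1) ↔ j < D.yQ) ∧ (¬ D.RO j (j - 1)) := by
  unfold RS RN RB RA RO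
  refine ⟨?_, ?_, ?_, ?_, ?_⟩ <;> omega

/-- row `j` of `X_(j+1)`, right column -/
lemma R_sj : (¬ D.RS (j + 1) j) ∧ (¬ D.RN (j + 1) j) ∧ (D.RB (j + 1) j ↔ D.yQ ≤ j + 1) ∧
    (D.RA (j + 1) j ↔ j + 1 < D.yQ) ∧ (¬ D.RO (j + 1) j) := by
  unfold RS RN RB RA RO
  refine ⟨?_, ?_, ?_, ?_, ?_⟩ <;> omega

/-- row `j - 1` of `X_(j+1)`, right column -/
lemma R_sj1 : (D.RS (j + 1) (j - 1) ↔ D.yQ ≤ j ∧ ¬ (D.yQ < j ∧ D.b j < D.b (j - 1))) ∧
    (¬ D.RN (j + 1) (j - 1)) ∧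
    (D.RB (j + 1) (j - 1) ↔ D.yQ < j ∧ D.b j < D.b (j - 1)) ∧
    (¬ D.RA (j + 1) (j - 1)) ∧ (D.RO (j + 1) (j - 1) ↔ j < D.yQ) := by
  unfold RS RN RB RA RO
  rw [show j - 1 + 1 = j by ring]
  refine ⟨?_, ?_, ?_, ?_, ?_⟩ <;> omega

/-! ### Comparison of `X_j` and `X_(j+1)` -/

/-- the kinds of the tiles of the columns agree outside of the rows `j - 1`, `j` -/
lemma col_succ (h1 : y ≠ j) (h2 : y ≠ j - 1) : (D.LS (j + 1) y ↔ D.LS j y) ∧
    (D.LN (j + 1) y ↔ D.LN j y) ∧ (D.LB (j + 1) y ↔ D.LB j y) ∧ (D.LA (j + 1) y ↔ D.LA j y) ∧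
    (D.LO (j + 1) y ↔ D.LO j y) ∧ (D.RS (j + 1) y ↔ D.RS j y) ∧
    (D.RN (j + 1) y ↔ D.RN j y) ∧ (D.RB (j + 1) y ↔ D.RB j y) ∧ (D.RA (j + 1) y ↔ D.RA j y) ∧
    (D.RO (j + 1) y ↔ D.RO j y) := by
  unfold LS LN LB LA LO RS RN RB RA RO
  refine ⟨?_, ?_, ?_, ?_, ?_, ?_, ?_, ?_, ?_, ?_⟩ <;> omega

/-- the tile is one of the four tiles which change between `X_j` and `X_(j+1)` -/
def InQ (D : Win) (j x y : ℤ) : Prop := (y = j ∨ y = j - 1) ∧ (x = D.m y - 1 ∨ x = D.M y)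

lemma InE_succ (h : ¬ D.InQ j x y) : D.InE (j + 1) x y ↔ D.InE j x y := by
  unfold InE
  by_cases h1 : y = j ∨ y = j - 1
  · have h2 : x ≠ D.m y - 1 ∧ x ≠ D.M y := by
      constructor <;> · intro h3; exact h ⟨h1, by tauto⟩
    constructor
    · rintro (h3 | ⟨h3, h4, ⟨h5, -⟩ | ⟨h5, -⟩⟩)
      · exact Or.inl h3
      · exact absurd h5 h2.1
      · exact absurd h5 h2.2
    · rintro (h3 | ⟨h3, h4, ⟨h5, -⟩ | ⟨h5, -⟩⟩)
      · exact Or.inl h3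
      · exact absurd h5 h2.1
      · exact absurd h5 h2.2
  · obtain ⟨e1, e2, -, -, -, e6, e7, -⟩ := col_succ (D := D) (j := j) (y := y) (fun h => h1 (Or.inl h))
      (fun h => h1 (Or.inr h))
    rw [e1, e2, e6, e7]

lemma InC_succ (h : ¬ D.InQ j x y) : D.InC (j + 1) x y ↔ D.InC j x y := by
  unfold InC
  by_cases h1 : y = j ∨ y = j - 1
  · have h2 : x ≠ D.m y - 1 ∧ x ≠ D.M y := by
      constructor <;> · intro h3; exact h ⟨h1, by tauto⟩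
    constructor
    · rintro ⟨-, -, ⟨h5, -⟩ | ⟨h5, -⟩⟩
      · exact absurd h5 h2.1
      · exact absurd h5 h2.2
    · rintro ⟨-, -, ⟨h5, -⟩ | ⟨h5, -⟩⟩
      · exact absurd h5 h2.1
      · exact absurd h5 h2.2
  · obtain ⟨-, -, e3, e4, e5, -, -, e8, e9, e10⟩ := col_succ (D := D) (j := j) (y := y)
      (fun h => h1 (Or.inl h)) (fun h => h1 (Or.inr h))
    rw [e3, e4, e5, e8, e9, e10]

/-- the random labels agree outside of the four tiles -/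
lemma mem_EJ_succ (h : ¬ D.InQ j x y) : lt (x, y) ∈ D.EJ (j + 1) ↔ lt (x, y) ∈ D.EJ j := by
  rw [mem_EJ, mem_EJ, InE_succ h]

/-- the open labels agree outside of the four tiles -/
lemma mem_WR_succ (h : ¬ D.InQ j x y) : lt (x, y) ∈ D.WR (j + 1) ↔ lt (x, y) ∈ D.WR j := by
  rw [mem_WR, mem_WR, InC_succ h]

lemma mem_WJ_succ {Wo : Finset (ℤ × ℤ)} (h : ¬ D.InQ j x y) :
    lt (x, y) ∈ D.WJ (j + 1) Wo ↔ lt (x, y) ∈ D.WJ j Wo := by
  unfold WJ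
  rw [mem_union, mem_union, mem_WR_succ h]

/-- the weights agree outside of the rows `j - 1`, `j` -/
lemma qJ_succ (h1 : y ≠ j) (h2 : y ≠ j - 1) :
    D.qJ (j + 1) a b c (lt (x, y)) = D.qJ j a b c (lt (x, y)) := by
  unfold qJ
  rw [tt_lt]
  simp only
  by_cases h3 : j ≤ y
  · have h4 : j + 1 ≤ y := by omega
    have h5 : ¬ y = j + 1 - 1 := by omega
    have h6 : ¬ y = j - 1 := by omega
    simp only [if_pos h3, if_pos h4, if_neg h5, if_neg h6]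
  · have h4 : ¬ j + 1 ≤ y := by omega
    have h5 : ¬ y = j + 1 - 1 := by omega
    have h6 : ¬ y = j - 1 := by omega
    simp only [if_neg h3, if_neg h4, if_neg h5, if_neg h6]

/-! ### Values of the weights -/

lemma qJ_l : D.qJ j a b c (lt (D.m y - 1, y)) =
    wal (D.m y - 1) y (if y < D.yP then 1 - b else 1 - c) := by
  unfold qJ
  rw [tt_lt]
  simp only [if_true]

lemma qJ_r (h0 : -1 ≤ y) (h1 : y < D.h) : D.qJ j a b c (lt (D.M y, y)) =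
    wal (D.M y) y (if j ≤ y then 1 - c else 1 - b) := by
  have hM := m_lt_M h0 h1
  unfold qJ
  rw [tt_lt]
  simp only
  rw [if_neg (by omega), if_pos trivial]

/-- the row of the line -/
lemma qJ_row (h2 : D.m (j - 1) ≤ x) (h3 : x < D.M (j - 1)) :
    D.qJ j a b c (lt (x, j - 1)) = wal x (j - 1) a := by
  unfold qJ
  rw [tt_lt]
  simp only
  rw [if_neg (by omega), if_neg (by omega), if_pos trivial]

/-- natural tiles above the line -/
lemma qJ_up (hj : j ≤ y) (h0 : 0 ≤ y) (h2 : D.a y ≤ x) (h3 : x < D.b y) :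
    D.qJ j a b c (lt (x, y)) = 1 / 2 := by
  have e1 := m_le_a (D := D) h0
  have e2 := b_le_M (D := D) h0
  unfold qJ
  rw [tt_lt]
  simp only
  rw [if_neg (by omega), if_neg (by omega), if_neg (by omega), if_pos hj, if_neg (by omega),
    if_neg (by omega)]

/-- natural tiles below the line -/
lemma qJ_dn (hj : y + 1 < j) (h1 : y + 1 < D.h) (h2 : D.a (y + 1) ≤ x) (h3 : x < D.b (y + 1)) :
    D.qJ j a b c (lt (x, y)) = 1 / 2 := by
  have e1 := m_le_a' (D := D) h1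
  have e2 := b_le_M' (D := D) h1
  unfold qJ
  rw [tt_lt]
  simp only
  rw [if_neg (by omega), if_neg (by omega), if_neg (by omega), if_neg (by omega),
    if_neg (by omega), if_neg (by omega)]

/-- line tiles to the left of the row `y` of `P+` -/
lemma qJ_ul (hj : j ≤ y) (h0 : 0 ≤ y) (h2 : D.m y ≤ x) (h3 : x < D.a y) :
    D.qJ j a b c (lt (x, y)) =
      wal x y (if x = D.a y - 1 then 1 - (1 - a) * b else a) := by
  have h1 : D.a y ≤ D.M y := by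
    by_contra hcon
    unfold M MM at hcon
    unfold m mm at h2
    split_ifs at h2 hcon with g1 g2
    · exact absurd (D.ov1 y h0 (by have := D.P1; omega)) (by omega)
    · by_cases g3 : y < D.h
      · exact absurd (D.ab y h0 g3) (by omega)
      · have := D.P1; omega
    · omega
    · omega
  unfold qJ
  rw [tt_lt]
  simp only
  rw [if_neg (by omega), if_neg (by omega), if_neg (by omega), if_pos hj, if_pos h3]

/-- line tiles to the right of the row `y` of `P+` -/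
lemma qJ_ur (hj : j ≤ y) (h0 : 0 ≤ y) (h2 : D.b y ≤ x) (h3 : x < D.M y) :
    D.qJ j a b c (lt (x, y)) = wal x y (if x = D.b y then (1 - c) * a else a) := by
  have h4 : y < D.yQ := by
    by_contra hcon
    unfold M MM at h3
    rw [if_neg hcon] at h3
    omega
  have hQ := D.Q1
  have h5 : D.a y + 2 ≤ D.b y := D.ab y h0 (by omega)
  have h6 := m_le_a (D := D) h0
  unfold qJ
  rw [tt_lt]
  simp only
  rw [if_neg (by omega), if_neg (by omega), if_neg (by omega), if_pos hj, if_neg (by omega),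
    if_pos h2]

/-- line tiles to the left of the row `y` of `P-` -/
lemma qJ_dl (hj : y + 1 < j) (h0 : -1 ≤ y) (h1 : y + 1 < D.h) (h2 : D.m y ≤ x)
    (h3 : x < D.a (y + 1)) : D.qJ j a b c (lt (x, y)) =
      wal x y (if x = D.a (y + 1) - 1 then a * (1 - c) else a) := by
  have h5 : D.a (y + 1) + 2 ≤ D.b (y + 1) := D.ab (y + 1) (by omega) h1
  have h6 := b_le_M' (D := D) h1
  unfold qJ
  rw [tt_lt]
  simp only
  rw [if_neg (by omega), if_neg (by omega), if_neg (by omega), if_neg (by omega), if_pos h3]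

/-- line tiles to the right of the row `y` of `P-` -/
lemma qJ_dr (hj : y + 1 < j) (h0 : -1 ≤ y) (h1 : y + 1 < D.h) (h2 : D.b (y + 1) ≤ x)
    (h3 : x < D.M y) : D.qJ j a b c (lt (x, y)) =
      wal x y (if x = D.b (y + 1) then 1 - b * (1 - a) else a) := by
  have h5 : D.a (y + 1) + 2 ≤ D.b (y + 1) := D.ab (y + 1) (by omega) h1
  have h6 := m_le_a' (D := D) h1
  unfold qJ
  rw [tt_lt]
  simp only
  rw [if_neg (by omega), if_neg (by omega), if_neg (by omega), if_neg (by omega),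
    if_neg (by omega), if_pos h2]

/-- the two values of `wal` -/
lemma wal_even (h : (x + y) % 2 = 0) (w : ℂ) : wal x y w = w := by unfold wal; rw [if_pos h]

lemma wal_odd (h : (x + y) % 2 = 1) (w : ℂ) : wal x y w = 1 - w := by
  unfold wal; rw [if_neg (by omega)]

/-- `m`, `M` in the rows of the two parts of `P` -/
lemma m_lo (h : y + 1 < D.yP) : D.m y = D.a (y + 1) := by unfold m mm; rw [if_pos h]
lemma m_hi (h : D.yP ≤ y + 1) : D.m y = D.a y := by unfold m mm; rw [if_neg (by omega)]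
lemma M_lo (h : y < D.yQ) : D.M y = D.b (y + 1) := by unfold M MM; rw [if_pos h]
lemma M_hi (h : D.yQ ≤ y) : D.M y = D.b y := by unfold M MM; rw [if_neg (by omega)]

end Win

end Pool.Agent.H46.Sp
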