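import Mathlib
import Pool.Agent.H93.Sp.Str
import Pool.Agent.H74.R45.TilesJ

set_option autoImplicit false
open Finset

/-! # Tiles and wires of plane environments in the tile frame

`TP P` : the positions of `P` as tiles, `tilesP` : they are the tiles of an environment with the random
labels `lt '' P`. `IsWP` : wires of the network given by positions, `isWP_EW`, `isWP_NS` : neighbours.
`IsPl X W` : the deterministic paths of `X` are those with the open labels `W`, `IsPl.EN`, .. : one step.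
`tilesJ`, `XJ_pl` : the environments of a window. -/

namespace Pool.Agent.H46.Sp

open Pool.Agent.H75.Perc Pool.Agent.H75.TwoArm Pool.Agent.Q1 Pool.Agent.H33.Q1
open Pool.Agent.H75.Four Pool.Agent.H69.Q1 Pool.Agent.H81.G1
open Pool.Agent.H74.R45 (exists_lt ve he ve_inj he_inj lab_ve_E lab_ve_W lab_he_S lab_he_N nxC_ve_E
  nxC_ve_W nxC_he_S nxC_he_N ce inq Wire wpi_of)

/-! ### Tiles -/

section tiles

variable {P : Finset (ℤ × ℤ)} {X : Env} {x y : ℤ}

/-- the positions of `P` -/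
abbrev TP (P : Finset (ℤ × ℤ)) : Type := {q : ℤ × ℤ // q ∈ P}

/-- label of a tile -/
def lbP (i : TP P) : ℤ × ℤ := lt i.1

/-- type of a tile: the ends `W`, `E` are incoming -/
def tyP (i : TP P) : Bool := decide ((i.1.1 + i.1.2) % 2 = 1)

/-- the corner at the end of a tile -/
def crP (z : TP P × Dir) : ℤ × ℤ := ce z.1.1 z.2

lemma inc_eq_inq (z : TP P × Dir) : inc tyP z = inq z.1.1 z.2 := rfl

theorem tilesP (hE : ∀ e, e ∈ X.E ↔ ∃ q ∈ P, lt q = e) :
    Tiles X (lbP : TP P → ℤ × ℤ) tyP crP where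
  inj := fun a b hab => Subtype.ext (lt_inj hab)
  mem := fun i => (hE _).2 ⟨i.1, i.2, rfl⟩
  surj := fun e he => by
    obtain ⟨q, h1, h2⟩ := (hE e).1 he
    exact ⟨⟨q, h1⟩, h2⟩
  tt := fun i hi => by
    obtain ⟨⟨x, y⟩, hq⟩ := i
    have hp : (x + y) % 2 = 1 := by simpa [tyP] using hi
    refine ⟨lab_ve_E hp, ?_, ?_, ?_, ?_⟩
    · show lab (ve (x + 1, y)) = lt (x, y)
      rw [lab_ve_W (by omega), add_sub_cancel_right]
    · show ve (x, y) ≠ ve (x + 1, y)
      intro h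
      have := ve_inj h
      simp only [Prod.mk.injEq] at this
      omega
    · exact (nxC_ve_E hp).symm
    · show he (x, y) = nxC (ve (x + 1, y))
      rw [nxC_ve_W (by omega), add_sub_cancel_right]
  ff := fun i hi => by
    obtain ⟨⟨x, y⟩, hq⟩ := i
    have hp : (x + y) % 2 = 0 := by
      have : ¬ (x + y) % 2 = 1 := by simpa [tyP] using hi
      omega
    refine ⟨?_, lab_he_N hp, ?_, ?_, ?_⟩
    · show lab (he (x, y + 1)) = lt (x, y)
      rw [lab_he_S (by omega), add_sub_cancel_right]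
    · show he (x, y + 1) ≠ he (x, y)
      intro h
      have := he_inj h
      simp only [Prod.mk.injEq] at this
      omega
    · show ve (x + 1, y) = nxC (he (x, y + 1))
      rw [nxC_he_S (by omega), add_sub_cancel_right]
    · exact (nxC_he_N hp).symm

variable (T : Tiles X (lbP : TP P → ℤ × ℤ) tyP crP)

/-- the wires between two ends given by positions: partner and turning -/
def IsWP (z z' : TP P × Dir) (t : ℤ) : Prop :=
  wπ T z = z' ∧ wπ T z' = z ∧ wτ T z = t ∧ wτ T z' = -t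

variable {T}

lemma IsWP.symm {z z' : TP P × Dir} {t : ℤ} (H : IsWP T z z' t) : IsWP T z' z (-t) :=
  ⟨H.2.1, H.1, H.2.2.2, by rw [H.2.2.1, neg_neg]⟩

/-- a wire given by corners -/
lemma isWP_of {z z' : TP P × Dir} {c c' : ℤ × ℤ} {t : ℤ} (hz : inq z.1.1 z.2 = false)
    (hz' : inq z'.1.1 z'.2 = true) (hw : Wire X c c' t) (hc : ce z.1.1 z.2 = c)
    (hc' : ce z'.1.1 z'.2 = c') : IsWP T z z' t :=
  wpi_of T hz hz' (by
    show Wire _ (ce z.1.1 z.2) (ce z'.1.1 z'.2) t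
    rw [hc, hc']; exact hw)

/-- two tiles with a common end -/
lemma isWP_adj {z z' : TP P × Dir} (hc : ce z.1.1 z.2 = ce z'.1.1 z'.2)
    (hz : inq z.1.1 z.2 = !inq z'.1.1 z'.2) : IsWP T z z' 0 := by
  cases hz' : inq z'.1.1 z'.2
  · rw [hz'] at hz
    have := isWP_of (T := T) hz' hz (Wire.nil _) rfl hc
    simpa using this.symm
  · rw [hz'] at hz
    exact isWP_of (T := T) hz hz' (Wire.nil _) hc rfl

/-- horizontal neighbours -/
lemma isWP_EW (a : (x, y) ∈ P) (b : (x + 1, y) ∈ P) :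
    IsWP T (⟨(x, y), a⟩, .E) (⟨(x + 1, y), b⟩, .W) 0 := by
  refine isWP_adj rfl ?_
  show xor (decide ((x + y) % 2 = 1)) false = !xor (decide ((x + 1 + y) % 2 = 1)) false
  rcases Int.emod_two_eq_zero_or_one (x + y) with h | h
  · rw [h, show (x + 1 + y) % 2 = 1 by omega]; rfl
  · rw [h, show (x + 1 + y) % 2 = 0 by omega]; rfl

/-- vertical neighbours -/
lemma isWP_NS (a : (x, y) ∈ P) (b : (x, y + 1) ∈ P) :
    IsWP T (⟨(x, y), a⟩, .N) (⟨(x, y + 1), b⟩, .S) 0 := by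
  refine isWP_adj rfl ?_
  show xor (decide ((x + y) % 2 = 1)) true = !xor (decide ((x + (y + 1)) % 2 = 1)) true
  rcases Int.emod_two_eq_zero_or_one (x + y) with h | h
  · rw [h, show (x + (y + 1)) % 2 = 1 by omega]; rfl
  · rw [h, show (x + (y + 1)) % 2 = 0 by omega]; rfl

end tiles

/-! ### Wires -/

section wires

variable {X : Env} {W : Finset (ℤ × ℤ)} {x y t s : ℤ} {c' : ℤ × ℤ}

/-- the deterministic paths of `X` are the paths with the open labels `W` -/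
structure IsPl (X : Env) (W : Finset (ℤ × ℤ)) : Prop where
  out : ∀ c, X.out c = nx W c
  dout : ∀ c, X.dout c = del W c

lemma Wire.to' {c c1 : ℤ × ℤ} (h : c = c1) : Wire X c c1 0 := h ▸ Wire.nil c

lemma IsPl.EN (hX : IsPl X W) (hp : (x + y) % 2 = 1) (hE : lt (x, y) ∉ X.E) (hW : lt (x, y) ∉ W)
    (H : Wire X (he (x, y + 1)) c' t) (hs : s = 1 + t) : Wire X (ve (x, y)) c' s := by
  obtain ⟨a1, a2⟩ := Pool.Agent.H74.R45.EN (w := W) hp hW
  exact Wire.cons (by rw [lab_ve_E hp]; exact hE) (by rw [hX.out]; exact a1)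
    (by rw [hX.dout]; exact a2) H hs

lemma IsPl.ES (hX : IsPl X W) (hp : (x + y) % 2 = 1) (hE : lt (x, y) ∉ X.E) (hW : lt (x, y) ∈ W)
    (H : Wire X (he (x, y)) c' t) (hs : s = -1 + t) : Wire X (ve (x, y)) c' s := by
  obtain ⟨a1, a2⟩ := Pool.Agent.H74.R45.ES (w := W) hp hW
  exact Wire.cons (by rw [lab_ve_E hp]; exact hE) (by rw [hX.out]; exact a1)
    (by rw [hX.dout]; exact a2) H hs

lemma IsPl.WS (hX : IsPl X W) (hp : (x + y) % 2 = 0) (hE : lt (x - 1, y) ∉ X.E)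
    (hW : lt (x - 1, y) ∉ W) (H : Wire X (he (x - 1, y)) c' t) (hs : s = 1 + t) :
    Wire X (ve (x, y)) c' s := by
  obtain ⟨a1, a2⟩ := Pool.Agent.H74.R45.WS (w := W) hp hW
  exact Wire.cons (by rw [lab_ve_W hp]; exact hE) (by rw [hX.out]; exact a1)
    (by rw [hX.dout]; exact a2) H hs

lemma IsPl.WN (hX : IsPl X W) (hp : (x + y) % 2 = 0) (hE : lt (x - 1, y) ∉ X.E)
    (hW : lt (x - 1, y) ∈ W) (H : Wire X (he (x - 1, y + 1)) c' t) (hs : s = -1 + t) :
    Wire X (ve (x, y)) c' s := by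
  obtain ⟨a1, a2⟩ := Pool.Agent.H74.R45.WN (w := W) hp hW
  exact Wire.cons (by rw [lab_ve_W hp]; exact hE) (by rw [hX.out]; exact a1)
    (by rw [hX.dout]; exact a2) H hs

lemma IsPl.SE (hX : IsPl X W) (hp : (x + y) % 2 = 1) (hE : lt (x, y - 1) ∉ X.E)
    (hW : lt (x, y - 1) ∉ W) (H : Wire X (ve (x + 1, y - 1)) c' t) (hs : s = 1 + t) :
    Wire X (he (x, y)) c' s := by
  obtain ⟨a1, a2⟩ := Pool.Agent.H74.R45.SE (w := W) hp hW
  exact Wire.cons (by rw [lab_he_S hp]; exact hE) (by rw [hX.out]; exact a1)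
    (by rw [hX.dout]; exact a2) H hs

lemma IsPl.SW (hX : IsPl X W) (hp : (x + y) % 2 = 1) (hE : lt (x, y - 1) ∉ X.E)
    (hW : lt (x, y - 1) ∈ W) (H : Wire X (ve (x, y - 1)) c' t) (hs : s = -1 + t) :
    Wire X (he (x, y)) c' s := by
  obtain ⟨a1, a2⟩ := Pool.Agent.H74.R45.SW (w := W) hp hW
  exact Wire.cons (by rw [lab_he_S hp]; exact hE) (by rw [hX.out]; exact a1)
    (by rw [hX.dout]; exact a2) H hs

lemma IsPl.NW (hX : IsPl X W) (hp : (x + y) % 2 = 0) (hE : lt (x, y) ∉ X.E) (hW : lt (x, y) ∉ W)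
    (H : Wire X (ve (x, y)) c' t) (hs : s = 1 + t) : Wire X (he (x, y)) c' s := by
  obtain ⟨a1, a2⟩ := Pool.Agent.H74.R45.NW (w := W) hp hW
  exact Wire.cons (by rw [lab_he_N hp]; exact hE) (by rw [hX.out]; exact a1)
    (by rw [hX.dout]; exact a2) H hs

lemma IsPl.NE (hX : IsPl X W) (hp : (x + y) % 2 = 0) (hE : lt (x, y) ∉ X.E) (hW : lt (x, y) ∈ W)
    (H : Wire X (ve (x + 1, y)) c' t) (hs : s = -1 + t) : Wire X (he (x, y)) c' s := by
  obtain ⟨a1, a2⟩ := Pool.Agent.H74.R45.NE (w := W) hp hW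
  exact Wire.cons (by rw [lab_he_N hp]; exact hE) (by rw [hX.out]; exact a1)
    (by rw [hX.dout]; exact a2) H hs

/-- a wired side on the right of a free path, one step: two open labels above each other -/
lemma IsPl.left_up (hX : IsPl X W) (hp : (x + y) % 2 = 0) (hE : lt (x - 1, y) ∉ X.E)
    (hW : lt (x - 1, y) ∈ W) (hE' : lt (x - 1, y + 1) ∉ X.E) (hW' : lt (x - 1, y + 1) ∈ W) :
    Wire X (ve (x, y)) (ve (x, y + 1)) (-2) := by
  refine hX.WN hp hE hW (hX.NE (by omega) hE' hW' (Wire.to' ?_) rfl) (by norm_num)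
  rw [sub_add_cancel]

/-- two closed labels of the left column below each other -/
lemma IsPl.left_down (hX : IsPl X W) (hp : (x + y) % 2 = 0) (hE : lt (x - 1, y) ∉ X.E)
    (hW : lt (x - 1, y) ∉ W) (hE' : lt (x - 1, y - 1) ∉ X.E) (hW' : lt (x - 1, y - 1) ∉ W) :
    Wire X (ve (x, y)) (ve (x, y - 1)) 2 := by
  refine hX.WS hp hE hW (hX.SE (by omega) hE' hW' (Wire.to' ?_) rfl) (by norm_num)
  rw [sub_add_cancel]

/-- two closed labels of the right column above each other -/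
lemma IsPl.right_up (hX : IsPl X W) (hp : (x + y) % 2 = 1) (hE : lt (x, y) ∉ X.E)
    (hW : lt (x, y) ∉ W) (hE' : lt (x, y + 1) ∉ X.E) (hW' : lt (x, y + 1) ∉ W) :
    Wire X (ve (x, y)) (ve (x, y + 1)) 2 :=
  hX.EN hp hE hW (hX.NW (by omega) hE' hW' (Wire.to' rfl) rfl) (by norm_num)

/-- two open labels of the right column below each other -/
lemma IsPl.right_down (hX : IsPl X W) (hp : (x + y) % 2 = 1) (hE : lt (x, y) ∉ X.E)
    (hW : lt (x, y) ∈ W) (hE' : lt (x, y - 1) ∉ X.E) (hW' : lt (x, y - 1) ∈ W) :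
    Wire X (ve (x, y)) (ve (x, y - 1)) (-2) :=
  hX.ES hp hE hW (hX.SW (by omega) hE' hW' (Wire.to' rfl) rfl) (by norm_num)

/-- two closed labels of the row above, to the left -/
lemma IsPl.top_left (hX : IsPl X W) (hp : (x + y) % 2 = 0) (hE : lt (x, y) ∉ X.E)
    (hW : lt (x, y) ∉ W) (hE' : lt (x - 1, y) ∉ X.E) (hW' : lt (x - 1, y) ∉ W) :
    Wire X (he (x, y)) (he (x - 1, y)) 2 :=
  hX.NW hp hE hW (hX.WS hp hE' hW' (Wire.to' rfl) rfl) (by norm_num)

/-- two open labels of the row above, to the right -/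
lemma IsPl.top_right (hX : IsPl X W) (hp : (x + y) % 2 = 0) (hE : lt (x, y) ∉ X.E)
    (hW : lt (x, y) ∈ W) (hE' : lt (x + 1, y) ∉ X.E) (hW' : lt (x + 1, y) ∈ W) :
    Wire X (he (x, y)) (he (x + 1, y)) (-2) :=
  hX.NE hp hE hW (hX.ES (by omega) hE' hW' (Wire.to' rfl) rfl) (by norm_num)

/-- two closed labels of the row below, to the right -/
lemma IsPl.bot_right (hX : IsPl X W) (hp : (x + y) % 2 = 1) (hE : lt (x, y - 1) ∉ X.E)
    (hW : lt (x, y - 1) ∉ W) (hE' : lt (x + 1, y - 1) ∉ X.E) (hW' : lt (x + 1, y - 1) ∉ W) :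
    Wire X (he (x, y)) (he (x + 1, y)) 2 := by
  refine hX.SE hp hE hW (hX.EN (by omega) hE' hW' (Wire.to' ?_) rfl) (by norm_num)
  rw [sub_add_cancel]

/-- two open labels of the row below, to the left -/
lemma IsPl.bot_left (hX : IsPl X W) (hp : (x + y) % 2 = 1) (hE : lt (x, y - 1) ∉ X.E)
    (hW : lt (x, y - 1) ∈ W) (hE' : lt (x - 1, y - 1) ∉ X.E) (hW' : lt (x - 1, y - 1) ∈ W) :
    Wire X (he (x, y)) (he (x - 1, y)) (-2) := by
  refine hX.SW hp hE hW (hX.WN (by omega) hE' hW' (Wire.to' ?_) rfl) (by norm_num)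
  rw [sub_add_cancel]

end wires

/-! ### Windows -/

namespace Win

variable {D : Win} {x y j : ℤ}

open Classical in
/-- positions of the random tiles -/
noncomputable def PJ (D : Win) (j : ℤ) : Finset (ℤ × ℤ) :=
  (Icc (D.a (D.yP - 1) - 2) (D.b D.yQ + 1) ×ˢ Icc (-2) D.h).filter fun t => D.InE j t.1 t.2

lemma mem_PJ : (x, y) ∈ D.PJ j ↔ D.InE j x y := by
  classical
  unfold PJ
  simp only [mem_filter, mem_product, mem_Icc]
  refine ⟨fun h => h.2, fun h => ⟨?_, h⟩⟩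
  have := z_of h.z
  unfold InZ at this
  omega

lemma EJ_iff (e : ℤ × ℤ) : e ∈ D.EJ j ↔ ∃ q ∈ D.PJ j, lt q = e := by
  constructor
  · intro h
    obtain ⟨x, y, rfl⟩ := exists_lt (odd_EJ h)
    exact ⟨(x, y), mem_PJ.2 (mem_EJ.1 h), rfl⟩
  · rintro ⟨⟨x, y⟩, h1, rfl⟩
    exact mem_EJ.2 (mem_PJ.1 h1)

/-- the tiles of `X_j` -/
theorem tilesJ (O : Out D) (h0 : 0 ≤ j) :
    Tiles (XJ O j h0) (lbP : TP (D.PJ j) → ℤ × ℤ) tyP crP := tilesP fun e => EJ_iff e

/-- the deterministic paths of `X_j` -/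
theorem XJ_pl (O : Out D) (h0 : 0 ≤ j) : IsPl (XJ O j h0) (D.WJ j O.Wo) := ⟨fun _ => rfl, fun _ => rfl⟩

end Win

end Pool.Agent.H46.Sp
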